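import Pool.Agent.Y5.Stm2

/-! Final assembly of the blow-up theorem for the constrained Navier-Stokes system. -/

open Set Filter Topology MeasureTheory
open scoped SchwartzMap

set_option autoImplicit false

namespace Pool.Agent.Y721.NS

open Pool.Agent.Y5

/-- Changing the value of `B` at `0` does not matter. -/
theorem packet_off_zero {s : ℝ} {φ : 𝓢(E3, E3)} {μ C : ℝ} {B : ℕ → ℝ} (h : Packet s φ μ C B) :
    Packet s φ μ C (fun j => if j = 0 then 0 else B j) := by
  refine ⟨h.div, h.mass, h.grad, ?_⟩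
  intro i j n
  rw [h.tri i j n]
  congr 1
  congr 1
  congr 1
  · by_cases hc : i = n ∧ j < n
    · rw [if_pos hc, if_pos hc, if_neg (by omega)]
    · rw [if_neg hc, if_neg hc]
  · by_cases hc : i = j ∧ n < i
    · rw [if_pos hc, if_pos hc, if_neg (by omega)]
    · rw [if_neg hc, if_neg hc]

/-- Restriction of a solution to a shorter interval. -/
theorem rsol_restrict {s ν C T T' : ℝ} {B : ℕ → ℝ} {x : ℕ → ℝ → ℝ} (h : RSol s ν C B T x)
    (hT : T' ≤ T) : RSol s ν C B T' x := by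
  refine ⟨fun n t ht => ?_, fun T'' hT'' => h.bdd T'' (lt_of_lt_of_le hT'' hT)⟩
  exact (h.deriv n t ⟨ht.1, lt_of_lt_of_le ht.2 hT⟩).mono (Ico_subset_Ico_right hT)

theorem packet_zero (s : ℝ) (φ : E3 → E3) (y : E3) : packet s φ 0 y = φ y := by
  simp [packet]

theorem t_FIN : Pool.Agent.Y5.S_FIN := by
  intro hU hE hTl hP hR hS hO
  obtain ⟨b₁, b₂, c₁, c₂, K, s₀, hb₁, hc₁, hK, hs₀, hP⟩ := hP
  obtain ⟨s₁, hs₁, hO⟩ := hO b₁ b₂ c₁ c₂ K hb₁ hc₁ hK
  obtain ⟨s, hs0, hs1⟩ : ∃ s, s₀ ≤ s ∧ s₁ ≤ s := ⟨max s₀ s₁, le_max_left _ _, le_max_right _ _⟩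
  obtain ⟨ε, hε, hO⟩ := hO s hs1
  have hs : 1 < s := lt_of_lt_of_le hs₀ hs0
  obtain ⟨φ, μ, C, b, B₀, hpk₀, hμ, hb, hb', hC, hC', hB₀⟩ := hP s hs0 ε hε
  -- normalise `B 0`
  obtain ⟨B, hpk, hB, bb, hbb⟩ : ∃ B : ℕ → ℝ, Packet s φ μ C B ∧
      (∀ j, 1 ≤ j → |B j - b| * s ^ (2 * j) ≤ K) ∧ ∃ bb : ℝ, ∀ j, |B j| ≤ bb := by
    refine ⟨fun j => if j = 0 then 0 else B₀ j, packet_off_zero hpk₀, ?_, |b| + K, ?_⟩
    · intro j hj
      have : j ≠ 0 := by omega
      simp only [this, if_false]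
      exact hB₀ j hj
    · intro j
      by_cases hj : j = 0
      · simp only [hj, if_true, abs_zero]
        positivity
      · simp only [hj, if_false]
        have h1 := hB₀ j (by omega)
        have h2 : (1 : ℝ) ≤ s ^ (2 * j) := one_le_pow₀ hs.le
        have h3 : |B₀ j - b| ≤ K := by
          refine le_trans ?_ h1
          exact le_mul_of_one_le_right (abs_nonneg _) h2
        have h4 : |B₀ j| ≤ |b| + |B₀ j - b| := by
          have := abs_add_le b (B₀ j - b)
          simpa using this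
        linarith
  obtain ⟨hR1, hR2⟩ := hR s μ C bb B φ hs hbb hpk
  obtain ⟨⟨c, hc, hS1⟩, hS2⟩ := hS s φ hs
  refine ⟨s, φ, hs, hpk.div, hpk.mass, ?_⟩
  intro ν hν
  have hν' : 0 ≤ ν * μ := mul_nonneg hν hμ.le
  obtain ⟨A₀, hA₀, hO⟩ := hO C b B hb hb' hC hC' hB (ν * μ) hν'
  refine ⟨A₀, hA₀, ?_⟩
  intro A hA
  have hApos : 0 < A := lt_of_lt_of_le hA₀ hA
  obtain ⟨T₁, hT₁, hO⟩ := hO A hA
  obtain ⟨x, hx0, hx⟩ := hE s (ν * μ) C bb B (fun n => if n = 0 then A else 0) hs hν' hbb (by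
    intro k
    refine ⟨|A|, fun n => ?_⟩
    by_cases hn : n = 0
    · subst hn
      simp
    · simp only [hn, if_false, abs_zero, mul_zero]
      exact abs_nonneg A)
  have hx00 : x 0 0 = A := by simpa using hx0 0
  have hx01 : ∀ n, x (n + 1) 0 = 0 := fun n => by simpa using hx0 (n + 1)
  rcases hx with hglob | ⟨T, hT, hsol, hw, hunb⟩
  · exfalso
    have := (hO (T₁ + 1) x (by linarith) (hglob _) hx00 hx01).1
    linarith
  have hODE := hO T x hT hsol hx00 hx01
  have hblow := hODE.2 hunb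
  set u : ℝ → E3 → E3 := fun t y => ∑' n, x n t • packet s φ n y with hu
  have hwt : ∀ t ∈ Ico 0 T, ∀ k : ℕ, ∃ M, ∀ n, s ^ (k * n) * |x n t| ≤ M := by
    intro t ht k
    obtain ⟨M, hM⟩ := hw k t ht.2
    exact ⟨M, fun n => hM t ⟨ht.1, le_rfl⟩ n⟩
  have husum : ∀ t ∈ Ico 0 T, ∀ y, HasSum (fun n => x n t • packet s φ n y) (u t y) := by
    intro t ht y
    exact (hR1 (fun n => x n t) (hwt t ht) y).hasSum
  have hrep := fun t (ht : t ∈ Ico 0 T) => hR2 (fun n => x n t) (u t) (hwt t ht) (husum t ht)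
  have h0mem : (0 : ℝ) ∈ Ico 0 T := ⟨le_rfl, hT⟩
  -- energy identity
  have henergy : ∀ t ∈ Ico 0 T, HasDerivWithinAt (fun τ => ∫ y, ‖u τ y‖ ^ 2)
      (-(2 * ν * gradIn (u t) (u t))) (Ico 0 T) t := by
    intro t ht
    have h1 := hTl s (ν * μ) C bb T B x hs hν' hbb hsol 0 t ht
    have h2 : (-(2 * ∑' j : ℕ, (ν * μ) * s ^ (4 * (0 + j)) * x (0 + j) t ^ 2)
        + 2 * (if (0 : ℕ) = 0 then 0 else C * s ^ (5 * (0 - 1)) * x (0 - 1) t ^ 2 * x 0 t)
        + 2 * ∑ i ∈ Finset.range 0, s ^ (5 * i) * x i t *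
            ∑' j : ℕ, B (0 + j - i) * x (0 + j) t ^ 2)
        = -(2 * ν * gradIn (u t) (u t)) := by
      rw [(hrep t ht).2.2.2.2.1]
      simp only [if_true, Finset.range_zero, Finset.sum_empty, zero_add, mul_zero, add_zero]
      have h3 : ∀ j : ℕ, (ν * μ) * s ^ (4 * j) * x j t ^ 2 = (ν * μ) * (s ^ (4 * j) * x j t ^ 2) :=
        fun j => by ring
      simp only [h3]
      rw [tsum_mul_left]
      ring
    rw [h2] at h1
    refine h1.congr (fun τ hτ => ?_) ?_
    · rw [(hrep τ hτ).2.2.2.1]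
      simp only [zero_add]
    · rw [(hrep t ht).2.2.2.1]
      simp only [zero_add]
  -- the coefficients are bounded by `A`
  have hxA : ∀ t ∈ Ico 0 T, ∀ n, |x n t| ≤ A := by
    have hanti : AntitoneOn (fun τ => ∫ y, ‖u τ y‖ ^ 2) (Ico 0 T) := by
      refine antitoneOn_of_deriv_nonpos (convex_Ico 0 T)
        (fun t ht => (henergy t ht).continuousWithinAt) ?_ ?_
      · intro t ht
        rw [interior_Ico] at ht
        exact ((henergy t ⟨ht.1.le, ht.2⟩).hasDerivAt
          (Ico_mem_nhds ht.1 ht.2)).differentiableAt.differentiableWithinAt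
      · intro t ht
        rw [interior_Ico] at ht
        have htt : t ∈ Ico 0 T := ⟨ht.1.le, ht.2⟩
        rw [((henergy t htt).hasDerivAt (Ico_mem_nhds ht.1 ht.2)).deriv]
        have hg : 0 ≤ gradIn (u t) (u t) := by
          rw [(hrep t htt).2.2.2.2.1]
          refine mul_nonneg hμ.le (tsum_nonneg fun n => ?_)
          have : 0 ≤ s := by linarith
          positivity
        have : 0 ≤ 2 * ν * gradIn (u t) (u t) := by positivity
        linarith
    intro t ht n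
    have h1 : ∫ y, ‖u t y‖ ^ 2 ≤ ∫ y, ‖u 0 y‖ ^ 2 := hanti h0mem ht ht.1
    rw [(hrep t ht).2.2.2.1, (hrep 0 h0mem).2.2.2.1] at h1
    have h2 : ∑' n, x n 0 ^ 2 = A ^ 2 := by
      rw [tsum_eq_single 0]
      · rw [hx00]
      · intro m hm
        obtain ⟨k, rfl⟩ := Nat.exists_eq_succ_of_ne_zero hm
        rw [hx01 k]
        simp
    -- summability of the squares
    have hsumm : Summable fun n => x n t ^ 2 := by
      obtain ⟨M, hM⟩ := hwt t ht 1
      have hM0 : 0 ≤ M := le_trans (by positivity) (hM 0)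
      have hs' : 0 < s := by linarith
      refine Summable.of_nonneg_of_le (fun n => sq_nonneg _) (f := fun n => M ^ 2 * (s⁻¹ ^ 2) ^ n)
        (fun n => ?_) ?_
      · have h3 := hM n
        rw [one_mul] at h3
        have h4 : |x n t| ≤ M * s⁻¹ ^ n := by
          rw [inv_pow, ← div_eq_mul_inv, le_div_iff₀ (by positivity)]
          linarith
        calc x n t ^ 2 = |x n t| ^ 2 := (sq_abs _).symm
          _ ≤ (M * s⁻¹ ^ n) ^ 2 := by gcongr
          _ = M ^ 2 * (s⁻¹ ^ 2) ^ n := by rw [mul_pow, ← pow_mul, ← pow_mul, mul_comm n 2]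
      · refine Summable.mul_left _ (summable_geometric_of_lt_one (by positivity) ?_)
        have h5 : s⁻¹ < 1 := inv_lt_one_of_one_lt₀ hs
        have h6 : 0 < s⁻¹ := by positivity
        nlinarith
    have h3 : x n t ^ 2 ≤ ∑' n, x n t ^ 2 := hsumm.le_tsum n (fun m _ => sq_nonneg _)
    rw [h2] at h1
    exact abs_le_of_sq_le_sq (by linarith) hApos.le
  have hu0 : ∀ y, u 0 y = A • φ y := by
    intro y
    simp only [hu]
    rw [tsum_eq_single 0]
    · rw [hx00, packet_zero]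
    · intro m hm
      obtain ⟨k, rfl⟩ := Nat.exists_eq_succ_of_ne_zero hm
      rw [hx01 k, zero_smul]
  refine ⟨T, u, hT, ⟨⟨x, hw, husum⟩, ?_⟩, hu0, ?_, ?_, henergy, ?_, ?_⟩
  · -- the equation
    intro n t ht
    have h1 := hsol.deriv n t ht
    rw [← (hrep t ht).2.2.2.2.2 ν n] at h1
    exact h1.congr (fun τ hτ => (hrep τ hτ).2.2.1 n) ((hrep t ht).2.2.1 n)
  · -- uniqueness
    intro T' v hT' hv hv0
    obtain ⟨⟨z, hz, hzsum⟩, hveq⟩ := hv
    have hzw : ∀ t ∈ Ico 0 T', ∀ k : ℕ, ∃ M, ∀ n, s ^ (k * n) * |z n t| ≤ M := by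
      intro t ht k
      obtain ⟨M, hM⟩ := hz k t ht.2
      exact ⟨M, fun n => hM t ⟨ht.1, le_rfl⟩ n⟩
    have hzrep := fun t (ht : t ∈ Ico 0 T') => hR2 (fun n => z n t) (v t) (hzw t ht) (hzsum t ht)
    have hzsol : RSol s (ν * μ) C B T' z := by
      refine ⟨fun n t ht => ?_, fun T'' hT'' => hz 8 T'' hT''⟩
      have h1 := hveq n t ht
      rw [(hzrep t ht).2.2.2.2.2 ν n] at h1
      exact h1.congr (fun τ hτ => ((hzrep τ hτ).2.2.1 n).symm) ((hzrep t ht).2.2.1 n).symm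
    have h0mem' : (0 : ℝ) ∈ Ico 0 T' := ⟨le_rfl, hT'⟩
    have hz0 : ∀ n, x n 0 = z n 0 := by
      intro n
      have h1 := (hzrep 0 h0mem').2.2.1 n
      have h2 : ∫ y, inner ℝ (v 0 y) (packet s φ n y)
          = ∫ y, A * inner ℝ (packet s φ 0 y) (packet s φ n y) := by
        refine integral_congr_ae (Eventually.of_forall fun y => ?_)
        simp only
        rw [hv0 y, packet_zero, real_inner_smul_left]
      rw [h2, integral_const_mul, hpk.mass 0 n] at h1
      rw [← h1, hx0 n]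
      by_cases hn : n = 0
      · simp [hn]
      · have hn' : ¬ (0 = n) := fun h => hn h.symm
        simp [hn, hn']
    have hle : T' ≤ T := by
      by_contra hlt
      push Not at hlt
      have hzT : RSol s (ν * μ) C B T z := rsol_restrict hzsol hlt.le
      have heq := hU s (ν * μ) C bb T B x z hs hν' hbb hsol hzT hz0
      apply hunb
      obtain ⟨M, hM⟩ := hz 8 T hlt
      refine ⟨M, fun t ht n => ?_⟩
      rw [heq n t ht]
      exact hM t ⟨ht.1, ht.2.le⟩ n
    refine ⟨hle, fun t ht => ?_⟩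
    have hxT : RSol s (ν * μ) C B T' x := rsol_restrict hsol hle
    have heq := hU s (ν * μ) C bb T' B x z hs hν' hbb hxT hzsol hz0
    funext y
    have h1 := hzsum t ht y
    have h2 := husum t ⟨ht.1, lt_of_lt_of_le ht.2 hle⟩ y
    have h3 : (fun n => x n t • packet s φ n y) = fun n => z n t • packet s φ n y := by
      funext n
      rw [heq n t ht]
    rw [h3] at h2
    exact h1.unique h2
  · intro t ht
    exact ⟨(hrep t ht).2.1, (hrep t ht).1⟩
  · -- blow-up
    intro M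
    by_contra hcon
    push Not at hcon
    obtain ⟨t, ht, n, hn⟩ := hblow (c * M)
    have h1 := hS1 (u t) n M (fun y => hcon t ht y)
    rw [(hrep t ht).2.2.1 n] at h1
    linarith
  · -- away from the origin
    intro r hr
    obtain ⟨M, hM⟩ := hS2 A r hr
    exact ⟨M, fun t ht y hy => hM (fun n => x n t) (u t) (hxA t ht) (husum t ht) y hy⟩

end Pool.Agent.Y721.NS
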